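import Pool.Agent.SKA.Main

set_option autoImplicit false

open Ne731736f

namespace Pool.Agent.Results.MP_24432d_co.Asymptotic

/-- **The Shearer-Kleitman conjecture holds asymptotically.** There is a constant `C` such that for
every `n` the cube `Q_n` (the subsets of `Fin n`) has at least `n / 2 - C n ^ (19 / 20)` pairwise
orthogonal decompositions into `n.choose (n / 2)` chains. -/
theorem result : ∃ C : ℝ, ∀ n : ℕ, ∃ m : ℕ, (n : ℝ) / 2 - C * (n : ℝ) ^ (19 / 20 : ℝ) ≤ m ∧
    ∃ F : Fin m → Finset (Finset (Finset (Fin n))),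
      (∀ i, IsChainDecomposition (F i)) ∧ (∀ i j, i ≠ j → Orthogonal (F i) (F j)) :=
  Pool.Agent.SKA.main

end Pool.Agent.Results.MP_24432d_co.Asymptotic
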